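import Pool.Graph.R_seed8.H504S.TaskQ
import Pool.Graph.R_seed8.H504S.TaskR

/-!
# Simplicial cohomology of C*-algebras vanishes with uniform constants
-/

set_option autoImplicit false

namespace Pool.Agent.Results.MP_263cac_an.UniformConstants

open scoped ENNReal

/-- bounded `m`-linear maps from `A` to `A*` -/
abbrev Cochain (m : ℕ) (A : Type) [NonUnitalCStarAlgebra A] : Type :=
  ContinuousMultilinearMap ℂ (fun _ : Fin m => A) (A →L[ℂ] ℂ)

/-- the value `(δS)(a)(b)` of the Hochschild coboundary -/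
noncomputable def cob {m : ℕ} {A : Type} [NonUnitalCStarAlgebra A] (S : Cochain m A)
    (a : Fin (m + 1) → A) (b : A) : ℂ :=
  S (Fin.tail a) (b * a 0)
    + ∑ i : Fin m, (-1 : ℂ) ^ ((i : ℕ) + 1) *
        S (fun j : Fin m =>
            if (j : ℕ) < (i : ℕ) then a (Fin.castSucc j)
            else if (j : ℕ) = (i : ℕ) then a (Fin.castSucc j) * a (Fin.succ j)
            else a (Fin.succ j)) b
    + (-1 : ℂ) ^ (m + 1) * S (Fin.init a) (a (Fin.last m) * b)

section pull

variable {m : ℕ} {A B : Type} [NonUnitalCStarAlgebra A] [NonUnitalCStarAlgebra B]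

/-- the pull-back of a cochain -/
noncomputable def pull (φ : B →L[ℂ] A) (T : Cochain m A) : Cochain m B :=
  ((ContinuousLinearMap.compL ℂ B A ℂ).flip φ).compContinuousMultilinearMap
    (T.compContinuousLinearMap (fun _ => φ))

theorem pull_apply (φ : B →L[ℂ] A) (T : Cochain m A) (x : Fin m → B) (y : B) :
    pull φ T x y = T (fun i => φ (x i)) (φ y) := rfl

theorem norm_pull_le {φ : B →L[ℂ] A} (hφ : ∀ x, ‖φ x‖ ≤ ‖x‖) (T : Cochain m A) :
    ‖pull φ T‖ ≤ ‖T‖ := by
  refine ContinuousMultilinearMap.opNorm_le_bound (ContinuousMultilinearMap.opNorm_nonneg _)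
    fun x => ?_
  refine ContinuousLinearMap.opNorm_le_bound _ (mul_nonneg
    (ContinuousMultilinearMap.opNorm_nonneg _) (Finset.prod_nonneg fun _ _ => norm_nonneg _))
    fun y => ?_
  rw [pull_apply]
  calc ‖T (fun i => φ (x i)) (φ y)‖ ≤ ‖T (fun i => φ (x i))‖ * ‖φ y‖ :=
        ContinuousLinearMap.le_opNorm _ _
    _ ≤ (‖T‖ * ∏ i, ‖φ (x i)‖) * ‖y‖ := by
        refine mul_le_mul (ContinuousMultilinearMap.le_opNorm _ _) (hφ y) (norm_nonneg _) ?_
        exact mul_nonneg (ContinuousMultilinearMap.opNorm_nonneg _)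
          (Finset.prod_nonneg fun _ _ => norm_nonneg _)
    _ ≤ (‖T‖ * ∏ i, ‖x i‖) * ‖y‖ := by
        refine mul_le_mul_of_nonneg_right (mul_le_mul_of_nonneg_left
          (Finset.prod_le_prod (fun _ _ => norm_nonneg _) fun i _ => hφ (x i))
          (ContinuousMultilinearMap.opNorm_nonneg _)) (norm_nonneg _)

theorem cob_pull {φ : B →L[ℂ] A} (hmul : ∀ x y, φ (x * y) = φ x * φ y) (T : Cochain m A)
    (x : Fin (m + 1) → B) (y : B) :
    cob (pull φ T) x y = cob T (fun i => φ (x i)) (φ y) := by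
  unfold cob
  simp only [pull_apply, hmul]
  congr 2
  refine Finset.sum_congr rfl fun i _ => ?_
  congr 3
  funext j
  split_ifs
  · rfl
  · rw [hmul]
  · rfl

/-- evaluation -/
noncomputable def ev (x : Fin m → A) (y : A) : Cochain m A →L[ℂ] ℂ :=
  (ContinuousLinearMap.apply ℂ ℂ y).comp
    (ContinuousMultilinearMap.apply ℂ (fun _ : Fin m => A) (A →L[ℂ] ℂ) x)

theorem ev_apply (x : Fin m → A) (y : A) (T : Cochain m A) : ev x y T = T x y := rfl

/-- the coboundary as a bounded functional of the cochain -/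
noncomputable def cobL (a : Fin (m + 1) → A) (b : A) : Cochain m A →L[ℂ] ℂ :=
  ev (Fin.tail a) (b * a 0)
    + ∑ i : Fin m, (-1 : ℂ) ^ ((i : ℕ) + 1) •
        ev (fun j : Fin m =>
            if (j : ℕ) < (i : ℕ) then a (Fin.castSucc j)
            else if (j : ℕ) = (i : ℕ) then a (Fin.castSucc j) * a (Fin.succ j)
            else a (Fin.succ j)) b
    + (-1 : ℂ) ^ (m + 1) • ev (Fin.init a) (a (Fin.last m) * b)

theorem cobL_apply (a : Fin (m + 1) → A) (b : A) (T : Cochain m A) : cobL a b T = cob T a b := by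
  simp only [cobL, cob, add_apply, sum_apply,
    smul_apply, ev_apply, smul_eq_mul]

theorem norm_smul_le' (c : ℂ) (T : Cochain m A) : ‖c • T‖ ≤ ‖c‖ * ‖T‖ := by
  refine ContinuousMultilinearMap.opNorm_le_bound (mul_nonneg (norm_nonneg _)
    (ContinuousMultilinearMap.opNorm_nonneg _)) fun x => ?_
  rw [smul_apply, norm_smul, mul_assoc]
  exact mul_le_mul_of_nonneg_left (ContinuousMultilinearMap.le_opNorm _ _) (norm_nonneg _)

end pull

/-- the library's theorem -/
theorem vanish (A : Type) [NonUnitalCStarAlgebra A] (m : ℕ) (T : Cochain (m + 1) A)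
    (hT : ∀ a b, cob T a b = 0) : ∃ S : Cochain m A, ∀ a b, T a b = cob S a b :=
  (H504S.final_step (fun B _ n T hT hc => H504S.main_unital B n T hT hc)) A m T hT

/-- the gliding hump, with the direct sum `B` of the algebras `A k` given abstractly -/
theorem core (m : ℕ) (A : ℕ → Type) [∀ k, NonUnitalCStarAlgebra (A k)] (B : Type)
    [NonUnitalCStarAlgebra B] (P : ∀ k, B →L[ℂ] A k) (ι : ∀ k, A k →L[ℂ] B)
    (hPmul : ∀ k x y, P k (x * y) = P k x * P k y) (hPn : ∀ k x, ‖P k x‖ ≤ ‖x‖)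
    (hιmul : ∀ k x y, ι k (x * y) = ι k x * ι k y) (hιn : ∀ k x, ‖ι k x‖ ≤ ‖x‖)
    (hPk : ∀ k x, P k (ι k x) = x) (hPj : ∀ j k x, j ≠ k → P j (ι k x) = 0)
    (T : ∀ k, Cochain (m + 1) (A k)) (hT : ∀ k a b, cob (T k) a b = 0) :
    ∃ k : ℕ, ∃ S : Cochain m (A k), (∀ a b, T k a b = cob S a b) ∧
      ‖S‖ ≤ ((k : ℝ) * 2 ^ k) * ‖T k‖ := by
  by_contra hcon
  push Not at hcon
  have hS : ∀ (k : ℕ) (S : Cochain m (A k)), (∀ a b, T k a b = cob S a b) →
      ((k : ℝ) * 2 ^ k) * ‖T k‖ < ‖S‖ := hcon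
  have hpos : ∀ k, 0 < ‖T k‖ := by
    intro k
    by_contra hle
    have h0 : ‖T k‖ = 0 := le_antisymm (not_lt.1 hle) (ContinuousMultilinearMap.opNorm_nonneg _)
    have h1 : ∀ a, T k a = 0 := by
      intro a
      have := ContinuousMultilinearMap.le_opNorm (T k) a
      rw [h0, zero_mul] at this
      exact norm_le_zero_iff.1 this
    have h2 := hS k 0 (fun a b => by rw [h1]; simp [cob])
    rw [h0, mul_zero] at h2
    exact absurd h2 (by
      have : ‖(0 : Cochain m (A k))‖ ≤ 0 :=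
        ContinuousMultilinearMap.opNorm_le_bound le_rfl fun x => by simp
      exact not_lt.2 this)
  let w : ℕ → ℝ := fun k => (1 / 2) ^ k / ‖T k‖
  have hw : ∀ k, 0 < w k := fun k => div_pos (by positivity) (hpos k)
  have hw2 : ∀ k, w k * ‖T k‖ = (1 / 2) ^ k := fun k => div_mul_cancel₀ _ (hpos k).ne'
  have hsum : Summable fun k => ((w k : ℝ) : ℂ) • pull (P k) (T k) := by
    refine Summable.of_norm_bounded (E := Cochain (m + 1) B) (g := fun k : ℕ => ((1 : ℝ) / 2) ^ k)
      summable_geometric_two fun k => ?_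
    refine (norm_smul_le' _ _).trans ?_
    rw [Complex.norm_real, Real.norm_of_nonneg (hw k).le, ← hw2 k]
    exact mul_le_mul_of_nonneg_left (norm_pull_le (hPn k) (T k)) (hw k).le
  obtain ⟨TT, hTT⟩ := hsum
  have hcoc : ∀ a b, cob TT a b = 0 := by
    intro a b
    have h2 := (cobL a b).hasSum hTT
    have h3 : (fun k => cobL a b (((w k : ℝ) : ℂ) • pull (P k) (T k))) = fun _ => 0 := by
      funext k
      rw [map_smul, cobL_apply, cob_pull (hPmul k), hT, smul_zero]
    rw [h3, cobL_apply] at h2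
    exact (hasSum_zero.unique h2).symm
  obtain ⟨S, hSS⟩ := vanish B m TT hcoc
  obtain ⟨k, hk⟩ := exists_nat_gt ‖S‖
  have hval : ∀ a b, TT (fun i => ι k (a i)) (ι k b) = (w k : ℂ) * T k a b := by
    intro a b
    have h2 := (ev (fun i => ι k (a i)) (ι k b)).hasSum hTT
    have h3 : ∀ j, ev (fun i => ι k (a i)) (ι k b) (((w j : ℝ) : ℂ) • pull (P j) (T j)) =
        (w j : ℂ) * T j (fun i => P j (ι k (a i))) (P j (ι k b)) := by
      intro j
      rw [map_smul, ev_apply, pull_apply, smul_eq_mul]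
    simp only [h3] at h2
    have h4 := h2.unique (hasSum_single k (fun j hj => by
      rw [hPj j k b hj, map_zero, mul_zero]))
    rw [ev_apply] at h4
    rw [h4]
    simp only [hPk]
  have hk2 := hS k ((w k : ℂ)⁻¹ • pull (ι k) S) (by
    intro a b
    rw [← cobL_apply, map_smul, cobL_apply, cob_pull (hιmul k), ← hSS, hval, smul_eq_mul,
      inv_mul_cancel_left₀]
    exact_mod_cast (hw k).ne')
  have h5 : ‖(w k : ℂ)⁻¹ • pull (ι k) S‖ ≤ (w k)⁻¹ * ‖S‖ := by
    refine (norm_smul_le' _ _).trans ?_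
    rw [norm_inv, Complex.norm_real, Real.norm_of_nonneg (hw k).le]
    exact mul_le_mul_of_nonneg_left (norm_pull_le (hιn k) S) (inv_nonneg.2 (hw k).le)
  have h6 : (w k)⁻¹ = 2 ^ k * ‖T k‖ := by
    simp only [w]
    rw [inv_div, one_div, inv_pow, div_inv_eq_mul, mul_comm]
  rw [h6] at h5
  have h7 : 2 ^ k * ‖T k‖ * ‖S‖ ≤ 2 ^ k * ‖T k‖ * k :=
    mul_le_mul_of_nonneg_left hk.le (mul_nonneg (by positivity) (hpos k).le)
  nlinarith

/-- Simplicial cohomology of C*-algebras vanishes, with a bound that depends on the degree only. -/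
theorem result (m : ℕ) : ∃ C : ℝ, ∀ (A : Type) [NonUnitalCStarAlgebra A]
    (T : Cochain (m + 1) A), (∀ a b, cob T a b = 0) →
      ∃ S : Cochain m A, ‖S‖ ≤ C * ‖T‖ ∧ ∀ a b, T a b = cob S a b := by
  by_contra hcon
  push Not at hcon
  have h1 : ∀ k : ℕ, ∃ (A : Type) (_ : NonUnitalCStarAlgebra A) (T : Cochain (m + 1) A),
      (∀ a b, cob T a b = 0) ∧ ∀ S : Cochain m A, (∀ a b, T a b = cob S a b) →
        ((k : ℝ) * 2 ^ k) * ‖T‖ < ‖S‖ := by
    intro k
    obtain ⟨A, inst, T, hT, hS⟩ := hcon ((k : ℝ) * 2 ^ k)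
    refine ⟨A, inst, T, hT, fun S hSe => ?_⟩
    by_contra hle
    obtain ⟨a, b, hab⟩ := hS S (not_lt.1 hle)
    exact hab (hSe a b)
  choose A inst T hT hS using h1
  obtain ⟨k, S, hk1, hk2⟩ := core m A (lp A ∞) (fun k => lp.evalCLM ℂ A ∞ k)
    (fun k => lp.singleContinuousLinearMap ℂ A ∞ k) (fun k x y => rfl)
    (fun k x => lp.norm_apply_le_norm (by simp) x k)
    (fun k x y => by
      ext j
      show (lp.single ∞ k (x * y) : lp A ∞) j =
        (lp.single ∞ k x : lp A ∞) j * (lp.single ∞ k y : lp A ∞) j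
      by_cases hj : j = k
      · subst hj
        simp only [lp.single_apply_self]
      · simp only [lp.single_apply_ne _ _ _ hj, mul_zero])
    (fun k x => (lp.norm_single (by simp) k x).le)
    (fun k x => lp.single_apply_self ∞ k x)
    (fun j k x hj => lp.single_apply_ne ∞ k x hj) T hT
  exact absurd hk2 (not_le.2 (hS k S hk1))

end Pool.Agent.Results.MP_263cac_an.UniformConstants
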